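import Pool.Agent.H98.SLN.Targets

set_option autoImplicit false

open MeasureTheory ProbabilityTheory Filter Topology
open scoped ENNReal
open Pool.Agent.H95 Pool.Agent.H95.Cop
open Pool.Agent.H55.CG (pz VV Mo)
open Pool.Agent.H98.CE (pc WB HK OBJ)
open Pool.Agent.H96.Cop (ex pk Wn chargeLaw)
open Pool.Agent.H99.CE (NX)
open Pool.Agent.H98.SLN

namespace Pool.Agent.H61.SLN

/-- reverse of `rpow_tele1` -/
lemma kra_tele1 (α : ℝ) (hα : 0 < α) (hα1 : α ≤ 1) (t : ℝ) (ht : 0 < t) :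
    t ^ (-α) - (t + 1) ^ (-α) ≤ α * t ^ (-(1 + α)) := by
  have h1 : t + 1 = t * (1 + 1 / t) := by field_simp
  have h2 : 0 < 1 + 1 / t := by positivity
  have h3 : (t + 1) ^ (-α) = t ^ (-α) * (1 + 1 / t) ^ (-α) := by
    rw [h1, Real.mul_rpow ht.le h2.le]
  have h4 : t ^ (-(1 + α)) = t ^ (-α) * (1 / t) := by
    rw [show -(1 + α) = -α + (-1) by ring, Real.rpow_add ht, Real.rpow_neg_one]
    ring
  have h5 : (1 + 1 / t) ^ α ≤ 1 + α * (1 / t) :=
    rpow_one_add_le_one_add_mul_self (by linarith [div_pos one_pos ht]) hα.le hα1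
  have h6 : 0 < (1 + 1 / t) ^ α := Real.rpow_pos_of_pos h2 _
  have h7 : 1 - α * (1 / t) ≤ (1 + 1 / t) ^ (-α) := by
    rw [Real.rpow_neg h2.le]
    have h8 : 0 < 1 + α * (1 / t) := by positivity
    have h9 : 1 - α * (1 / t) ≤ (1 + α * (1 / t))⁻¹ := by
      rw [← one_div (1 + α * (1 / t)), le_div_iff₀ h8]
      nlinarith [sq_nonneg (α * (1 / t))]
    exact h9.trans (inv_anti₀ h6 h5)
  have h8 : 0 < t ^ (-α) := Real.rpow_pos_of_pos ht _
  rw [h3, h4]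
  nlinarith [mul_le_mul_of_nonneg_left h7 h8.le]

/-- reverse of `rpow_tele2` -/
lemma kra_tele2 (α : ℝ) (hα : 0 ≤ α) (hα1 : α ≤ 1) (t : ℝ) (ht : 0 < t) :
    (t + 1) ^ (1 - α) - t ^ (1 - α) ≤ (1 - α) * t ^ (-α) := by
  have h1 : t + 1 = t * (1 + 1 / t) := by field_simp
  have h2 : 0 < 1 + 1 / t := by positivity
  have h3 : (t + 1) ^ (1 - α) = t ^ (1 - α) * (1 + 1 / t) ^ (1 - α) := by
    rw [h1, Real.mul_rpow ht.le h2.le]
  have h4 : t ^ (-α) = t ^ (1 - α) * (1 / t) := by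
    rw [show -α = (1 - α) + (-1) by ring, Real.rpow_add ht, Real.rpow_neg_one]
    ring
  have h5 : (1 + 1 / t) ^ (1 - α) ≤ 1 + (1 - α) * (1 / t) :=
    rpow_one_add_le_one_add_mul_self (by linarith [div_pos one_pos ht]) (by linarith)
      (by linarith)
  have h8 : 0 < t ^ (1 - α) := Real.rpow_pos_of_pos ht _
  rw [h3, h4]
  nlinarith [mul_le_mul_of_nonneg_left h5 h8.le]

lemma kra_mono (g : ℕ → ℝ) (n0 : ℕ) (h : ∀ n, n0 ≤ n → g n ≤ g (n + 1))
    (ht : Tendsto g atTop (𝓝 0)) (n : ℕ) (hn : n0 ≤ n) : g n ≤ 0 := by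
  have h1 : ∀ m, n ≤ m → g n ≤ g m := by
    intro m hm
    induction m, hm using Nat.le_induction with
    | base => exact le_rfl
    | succ m hm ih => exact ih.trans (h m (hn.trans hm))
  exact ge_of_tendsto ht (eventually_atTop.2 ⟨n, h1⟩)

lemma kra_tail0 (K : PMF ℕ) : Tendsto (fun n : ℕ => tailK K (n + 1)) atTop (𝓝 0) := by
  have h1 : Tendsto (fun n : ℕ => ∑ j ∈ Finset.range n, kk K j) atTop (𝓝 1) :=
    (kk_hasSum K).tendsto_sum_nat
  have h2 : Tendsto (fun n : ℕ => tailK K n) atTop (𝓝 (1 - 1)) := h1.const_sub 1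
  rw [sub_self] at h2
  exact h2.comp (tendsto_add_atTop_nat 1)

lemma kra_pow0 (α : ℝ) (hα : 0 < α) : Tendsto (fun n : ℕ => (n : ℝ) ^ (-α)) atTop (𝓝 0) :=
  (tendsto_rpow_neg_atTop hα).comp tendsto_natCast_atTop_atTop

/-- upper bound for the tail -/
lemma kra_tu (α : ℝ) (hα : 0 < α) (K : PMF ℕ) (C : ℝ) (hC : 0 ≤ C) (n0 : ℕ) (hn0 : 1 ≤ n0)
    (hk : ∀ n : ℕ, n0 ≤ n → kk K n ≤ C * (n : ℝ) ^ (-(1 + α))) (n : ℕ) (hn : n0 ≤ n) :
    tailK K (n + 1) ≤ C / α * (n : ℝ) ^ (-α) := by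
  have h1 := kra_mono (fun n => tailK K (n + 1) - C / α * (n : ℝ) ^ (-α)) n0 (fun n hn => by
    have h2 := hk (n + 1) (by omega)
    have h3 := rpow_tele1 α hα n (hn0.trans hn)
    have h4 := tailK_succ K (n + 1)
    have h5 : C / α * (α * ((n : ℝ) + 1) ^ (-(1 + α))) ≤
        C / α * ((n : ℝ) ^ (-α) - ((n : ℝ) + 1) ^ (-α)) :=
      mul_le_mul_of_nonneg_left h3 (by positivity)
    have h6 : C / α * (α * ((n : ℝ) + 1) ^ (-(1 + α))) = C * ((n : ℝ) + 1) ^ (-(1 + α)) := by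
      field_simp
    push_cast at h2 ⊢
    rw [h4]
    nlinarith) (by
    have h2 := (kra_tail0 K).sub ((kra_pow0 α hα).const_mul (C / α))
    rwa [mul_zero, sub_zero] at h2) n hn
  linarith [h1]

/-- lower bound for the tail -/
lemma kra_tl (α : ℝ) (hα : 0 < α) (hα1 : α ≤ 1) (K : PMF ℕ) (C : ℝ) (hC : 0 ≤ C) (n0 : ℕ)
    (hk : ∀ n : ℕ, n0 ≤ n → C * (n : ℝ) ^ (-(1 + α)) ≤ kk K n) (n : ℕ) (hn : n0 ≤ n) :
    C / α * ((n : ℝ) + 1) ^ (-α) ≤ tailK K (n + 1) := by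
  have h1 := kra_mono (fun n => C / α * ((n : ℝ) + 1) ^ (-α) - tailK K (n + 1)) n0 (fun n hn => by
    have h2 := hk (n + 1) (by omega)
    have h3 := kra_tele1 α hα hα1 ((n : ℝ) + 1) (by positivity)
    have h4 := tailK_succ K (n + 1)
    have h5 : C / α * (((n : ℝ) + 1) ^ (-α) - ((n : ℝ) + 1 + 1) ^ (-α)) ≤
        C / α * (α * ((n : ℝ) + 1) ^ (-(1 + α))) :=
      mul_le_mul_of_nonneg_left h3 (by positivity)
    have h6 : C / α * (α * ((n : ℝ) + 1) ^ (-(1 + α))) = C * ((n : ℝ) + 1) ^ (-(1 + α)) := by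
      field_simp
    push_cast at h2 ⊢
    rw [h4]
    nlinarith) (by
    have h7 : Tendsto (fun n : ℕ => ((n : ℝ) + 1) ^ (-α)) atTop (𝓝 0) := by
      have := (kra_pow0 α hα).comp (tendsto_add_atTop_nat 1)
      refine this.congr (fun n => ?_)
      simp only [Function.comp]
      push_cast
      rfl
    have h2 := (h7.const_mul (C / α)).sub (kra_tail0 K)
    rwa [mul_zero, sub_zero] at h2) n hn
  linarith [h1]

/-- upper bound for the truncated mean -/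
lemma kra_TSu (α : ℝ) (hα : 0 < α) (hα1 : α < 1) (K : PMF ℕ) (C : ℝ) (hC : 0 ≤ C) (n0 : ℕ)
    (hn0 : 1 ≤ n0) (hk : ∀ n : ℕ, n0 ≤ n → kk K n ≤ C * (n : ℝ) ^ (-(1 + α))) (ℓ : ℕ) :
    TS K ℓ ≤ n0 + 2 * C / α * ((ℓ : ℝ) ^ (1 - α) / (1 - α)) := by
  have hterm : ∀ j : ℕ, tailK K (j + 1) ≤ (if j < n0 then 1 else 0) +
      2 * C / α * ((j : ℝ) + 1) ^ (-α) := by
    intro j
    have hj0 : 0 ≤ ((j : ℝ) + 1) ^ (-α) := by positivity
    split_ifs with hj
    · have := tailK_le_one K (j + 1)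
      have : 0 ≤ 2 * C / α * ((j : ℝ) + 1) ^ (-α) := by positivity
      linarith
    · push Not at hj
      have h1 := kra_tu α hα K C hC n0 hn0 hk j hj
      have hj1 : (1 : ℝ) ≤ j := by exact_mod_cast hn0.trans hj
      have h2 : (j : ℝ) ^ (-α) ≤ 2 * ((j : ℝ) + 1) ^ (-α) := by
        have h3 : (2 * (j : ℝ)) ^ (-α) ≤ ((j : ℝ) + 1) ^ (-α) :=
          Real.rpow_le_rpow_of_nonpos (by linarith) (by linarith) (by linarith)
        have h4 : (2 * (j : ℝ)) ^ (-α) = 2 ^ (-α) * (j : ℝ) ^ (-α) :=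
          Real.mul_rpow (by norm_num) (by linarith)
        have h5 : (1 / 2 : ℝ) ≤ 2 ^ (-α) := by
          calc (1 / 2 : ℝ) = 2 ^ (-1 : ℝ) := by
                rw [Real.rpow_neg_one]
                norm_num
            _ ≤ 2 ^ (-α) := Real.rpow_le_rpow_of_exponent_le (by norm_num) (by linarith)
        have h6 : 0 ≤ (j : ℝ) ^ (-α) := by positivity
        nlinarith
      calc tailK K (j + 1) ≤ C / α * (j : ℝ) ^ (-α) := h1
        _ ≤ C / α * (2 * ((j : ℝ) + 1) ^ (-α)) := mul_le_mul_of_nonneg_left h2 (by positivity)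
        _ = 0 + 2 * C / α * ((j : ℝ) + 1) ^ (-α) := by ring
  unfold TS
  calc ∑ j ∈ Finset.range ℓ, tailK K (j + 1) ≤ ∑ j ∈ Finset.range ℓ,
        ((if j < n0 then (1 : ℝ) else 0) + 2 * C / α * ((j : ℝ) + 1) ^ (-α)) :=
        Finset.sum_le_sum (fun j _ => hterm j)
    _ = ∑ j ∈ Finset.range ℓ, (if j < n0 then (1 : ℝ) else 0) +
        2 * C / α * ∑ j ∈ Finset.range ℓ, ((j : ℝ) + 1) ^ (-α) := by
        rw [Finset.sum_add_distrib, Finset.mul_sum]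
    _ ≤ n0 + 2 * C / α * ((ℓ : ℝ) ^ (1 - α) / (1 - α)) := by
        refine add_le_add ?_ (mul_le_mul_of_nonneg_left (sum_rpow_le α hα hα1 ℓ) (by positivity))
        rw [← Finset.sum_filter, Finset.sum_const, nsmul_eq_mul, mul_one]
        have h7 : ((Finset.range ℓ).filter (fun j => j < n0)).card ≤ n0 := by
          calc ((Finset.range ℓ).filter (fun j => j < n0)).card ≤ (Finset.range n0).card := by
                refine Finset.card_le_card (fun j hj => ?_)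
                rw [Finset.mem_filter] at hj
                exact Finset.mem_range.2 hj.2
            _ = n0 := Finset.card_range n0
        exact_mod_cast h7

/-- lower bound for the truncated mean -/
lemma kra_TSl (α : ℝ) (hα : 0 < α) (hα1 : α < 1) (K : PMF ℕ) (C : ℝ) (hC : 0 ≤ C) (n0 : ℕ)
    (hk : ∀ n : ℕ, n0 ≤ n → C * (n : ℝ) ^ (-(1 + α)) ≤ kk K n) (ℓ : ℕ) (hl : n0 ≤ ℓ) :
    C / α / (1 - α) * ((ℓ : ℝ) ^ (1 - α) - ((n0 : ℝ) + 1) ^ (1 - α)) ≤ TS K ℓ := by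
  have hB : 0 ≤ C / α / (1 - α) := div_nonneg (by positivity) (by linarith)
  have hbase : C / α / (1 - α) * (((ℓ : ℝ) + 1) ^ (1 - α) - ((n0 : ℝ) + 1) ^ (1 - α)) ≤
      TS K ℓ := by
    induction ℓ, hl using Nat.le_induction with
    | base =>
      rw [sub_self, mul_zero]
      unfold TS
      exact Finset.sum_nonneg (fun j _ => tailK_nonneg K _)
    | succ n hn ih =>
      have h1 : TS K (n + 1) = TS K n + tailK K (n + 1) := by
        unfold TS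
        rw [Finset.sum_range_succ]
      have h2 := kra_tl α hα hα1.le K C hC n0 hk n hn
      have h3 := kra_tele2 α hα.le hα1.le ((n : ℝ) + 1) (by positivity)
      have h4 : C / α / (1 - α) * (((n : ℝ) + 1 + 1) ^ (1 - α) - ((n : ℝ) + 1) ^ (1 - α)) ≤
          C / α / (1 - α) * ((1 - α) * ((n : ℝ) + 1) ^ (-α)) :=
        mul_le_mul_of_nonneg_left h3 hB
      have h5 : C / α / (1 - α) * ((1 - α) * ((n : ℝ) + 1) ^ (-α)) =
          C / α * ((n : ℝ) + 1) ^ (-α) := by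
        have : (1 - α) ≠ 0 := by linarith
        field_simp
      rw [h1]
      push_cast
      nlinarith
  refine le_trans (mul_le_mul_of_nonneg_left ?_ hB) hbase
  have : (ℓ : ℝ) ^ (1 - α) ≤ ((ℓ : ℝ) + 1) ^ (1 - α) :=
    Real.rpow_le_rpow (Nat.cast_nonneg _) (by linarith) (by linarith)
  linarith

/-- the second moment -/
lemma kra_s2 (α : ℝ) (hα : 0 < α) (hα1 : α ≤ 1) (K : PMF ℕ) (C : ℝ) (hC : 0 ≤ C) (n0 : ℕ)
    (hn0 : 1 ≤ n0) (hk : ∀ n : ℕ, n0 ≤ n → kk K n ≤ C * (n : ℝ) ^ (-(1 + α))) (ℓ : ℕ)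
    (hl : 1 ≤ ℓ) :
    ∑ n ∈ Finset.range (ℓ + 1), (n : ℝ) ^ 2 * kk K n ≤
      (n0 : ℝ) ^ 3 + 2 * C * (ℓ : ℝ) ^ (2 - α) := by
  have hl1 : (1 : ℝ) ≤ ℓ := by exact_mod_cast hl
  have hterm : ∀ n ∈ Finset.range (ℓ + 1), (n : ℝ) ^ 2 * kk K n ≤
      (if n < n0 then (n0 : ℝ) ^ 2 else 0) + C * (ℓ : ℝ) ^ (1 - α) := by
    intro n hn
    have hnl : n ≤ ℓ := by
      have := Finset.mem_range.1 hn
      omega
    have hp : 0 ≤ C * (ℓ : ℝ) ^ (1 - α) := by positivity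
    split_ifs with h
    · have h1 : (n : ℝ) ≤ n0 := by exact_mod_cast h.le
      have h2 := kk_le_one K n
      have h3 := kk_nonneg K n
      have h4 : (n : ℝ) ^ 2 ≤ (n0 : ℝ) ^ 2 := pow_le_pow_left₀ (Nat.cast_nonneg _) h1 2
      have h5 : (n : ℝ) ^ 2 * kk K n ≤ (n0 : ℝ) ^ 2 * 1 :=
        mul_le_mul h4 h2 h3 (by positivity)
      linarith
    · push Not at h
      have h1 := hk n h
      have hn1 : (1 : ℝ) ≤ n := by exact_mod_cast hn0.trans h
      have hnp : (0 : ℝ) < n := by linarith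
      have h2 : (n : ℝ) ^ 2 * (C * (n : ℝ) ^ (-(1 + α))) = C * (n : ℝ) ^ (1 - α) := by
        have : (n : ℝ) ^ (1 - α) = (n : ℝ) ^ 2 * (n : ℝ) ^ (-(1 + α)) := by
          rw [show 1 - α = (2 : ℕ) + (-(1 + α)) by push_cast; ring, Real.rpow_add hnp,
            Real.rpow_natCast]
        rw [this]
        ring
      have h3 : (n : ℝ) ^ (1 - α) ≤ (ℓ : ℝ) ^ (1 - α) :=
        Real.rpow_le_rpow hnp.le (by exact_mod_cast hnl) (by linarith)
      calc (n : ℝ) ^ 2 * kk K n ≤ (n : ℝ) ^ 2 * (C * (n : ℝ) ^ (-(1 + α))) :=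
            mul_le_mul_of_nonneg_left h1 (by positivity)
        _ = C * (n : ℝ) ^ (1 - α) := h2
        _ ≤ 0 + C * (ℓ : ℝ) ^ (1 - α) := by
            rw [zero_add]
            exact mul_le_mul_of_nonneg_left h3 hC
  calc ∑ n ∈ Finset.range (ℓ + 1), (n : ℝ) ^ 2 * kk K n ≤ ∑ n ∈ Finset.range (ℓ + 1),
        ((if n < n0 then (n0 : ℝ) ^ 2 else 0) + C * (ℓ : ℝ) ^ (1 - α)) :=
        Finset.sum_le_sum hterm
    _ = ∑ n ∈ Finset.range (ℓ + 1), (if n < n0 then (n0 : ℝ) ^ 2 else 0) +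
        (ℓ + 1) * (C * (ℓ : ℝ) ^ (1 - α)) := by
        rw [Finset.sum_add_distrib, Finset.sum_const, Finset.card_range, nsmul_eq_mul]
        push_cast
        ring
    _ ≤ (n0 : ℝ) ^ 3 + 2 * C * (ℓ : ℝ) ^ (2 - α) := by
        refine add_le_add ?_ ?_
        · rw [← Finset.sum_filter, Finset.sum_const, nsmul_eq_mul]
          have h7 : (((Finset.range (ℓ + 1)).filter (fun j => j < n0)).card : ℝ) ≤ n0 := by
            have : ((Finset.range (ℓ + 1)).filter (fun j => j < n0)).card ≤ n0 := by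
              calc ((Finset.range (ℓ + 1)).filter (fun j => j < n0)).card ≤
                    (Finset.range n0).card := by
                    refine Finset.card_le_card (fun j hj => ?_)
                    rw [Finset.mem_filter] at hj
                    exact Finset.mem_range.2 hj.2
                _ = n0 := Finset.card_range n0
            exact_mod_cast this
          calc (((Finset.range (ℓ + 1)).filter (fun j => j < n0)).card : ℝ) * (n0 : ℝ) ^ 2 ≤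
                n0 * (n0 : ℝ) ^ 2 := mul_le_mul_of_nonneg_right h7 (by positivity)
            _ = (n0 : ℝ) ^ 3 := by ring
        · have h8 : (ℓ : ℝ) ^ (2 - α) = ℓ * (ℓ : ℝ) ^ (1 - α) := by
            rw [show 2 - α = 1 + (1 - α) by ring, Real.rpow_add (by linarith), Real.rpow_one]
          rw [h8]
          have h9 : 0 ≤ C * (ℓ : ℝ) ^ (1 - α) := by positivity
          nlinarith

/-- two sided bounds for the weights -/
lemma kra_n0 (α : ℝ) (K : PMF ℕ) (cK : ℝ) (hcK : 0 < cK)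
    (hK : Tendsto (fun n : ℕ => (K n).toReal * (n : ℝ) ^ (1 + α)) atTop (𝓝 cK)) :
    ∃ n0 : ℕ, 1 ≤ n0 ∧ ∀ n : ℕ, n0 ≤ n → 3 / 4 * cK * (n : ℝ) ^ (-(1 + α)) ≤ kk K n ∧
      kk K n ≤ 5 / 4 * cK * (n : ℝ) ^ (-(1 + α)) := by
  have h1 : ∀ᶠ n : ℕ in atTop, 3 / 4 * cK < (K n).toReal * (n : ℝ) ^ (1 + α) :=
    hK.eventually (lt_mem_nhds (by linarith))
  have h2 : ∀ᶠ n : ℕ in atTop, (K n).toReal * (n : ℝ) ^ (1 + α) < 5 / 4 * cK :=
    hK.eventually (gt_mem_nhds (by linarith))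
  obtain ⟨n1, hn1⟩ := eventually_atTop.mp (h1.and h2)
  refine ⟨max n1 1, le_max_right _ _, fun n hn => ?_⟩
  have hn0 : (0 : ℝ) < n := by
    have : 1 ≤ n := (le_max_right _ _).trans hn
    exact_mod_cast this
  have h3 : 0 < (n : ℝ) ^ (1 + α) := Real.rpow_pos_of_pos hn0 _
  have h4 := hn1 n ((le_max_left _ _).trans hn)
  rw [Real.rpow_neg hn0.le, ← div_eq_mul_inv, ← div_eq_mul_inv, div_le_iff₀ h3, le_div_iff₀ h3]
  exact ⟨h4.1.le, h4.2.le⟩

theorem pf_KRA : T_KRA := by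
  intro α hα hα1 K hK0 cK hcK hK
  obtain ⟨n0, hn0, hn⟩ := kra_n0 α K cK hcK hK
  have hα0 : 0 < α := by
    have : (1 : ℝ) / 2 ^ 20 < 1 := by norm_num
    linarith
  have hα2 : 1 / α ≤ 11 / 10 := by
    rw [div_le_iff₀ hα0]
    have : (1 : ℝ) / 2 ^ 20 ≤ 1 / 100 := by norm_num
    linarith
  have hα3 : 1 ≤ 1 / α := by
    rw [le_div_iff₀ hα0]
    linarith
  set δ : ℝ := 1 - α with hδ
  have hδ0 : 0 < δ := by linarith
  have hs0 : 0 < Real.sqrt δ := Real.sqrt_pos.2 hδ0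
  have hpow : Tendsto (fun n : ℕ => (n : ℝ) ^ (1 - α)) atTop atTop :=
    (tendsto_rpow_atTop (by linarith : 0 < 1 - α)).comp tendsto_natCast_atTop_atTop
  have hpow2 : Tendsto (fun n : ℕ => (n : ℝ) ^ (2 - α)) atTop atTop :=
    (tendsto_rpow_atTop (by linarith : 0 < 2 - α)).comp tendsto_natCast_atTop_atTop
  have hlin : Tendsto (fun n : ℕ => Real.sqrt δ * (n : ℝ)) atTop atTop :=
    tendsto_natCast_atTop_atTop.const_mul_atTop hs0
  filter_upwards [eventually_ge_atTop (n0 + 1),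
    hlin.eventually (eventually_ge_atTop (2 : ℝ)),
    hlin.eventually (eventually_ge_atTop ((n0 : ℝ) + 1)),
    hpow.eventually (eventually_ge_atTop (2 * ((n0 : ℝ) + 1) ^ (1 - α))),
    hpow.eventually (eventually_ge_atTop ((n0 : ℝ) / cK)),
    hpow2.eventually (eventually_ge_atTop ((n0 : ℝ) ^ 3 / cK))] with ℓ e1 e2 e3 e4 e5 e6
  set q : ℕ := ⌊Real.sqrt δ * ℓ⌋₊ with hq
  have hq3 : (q : ℝ) ≤ Real.sqrt δ * ℓ := Nat.floor_le (by positivity)
  have hq2 : Real.sqrt δ * ℓ < q + 1 := Nat.lt_floor_add_one _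
  have hqn : n0 ≤ q := by
    have : (n0 : ℝ) < q + 1 := by linarith
    have h2 : n0 < q + 1 := by exact_mod_cast this
    omega
  rw [div_le_iff₀ hcK] at e5 e6
  refine ⟨hK0, hδ0, by linarith, by linarith, hα1.le, hcK, hn0.trans hqn, by linarith, hq3,
    fun n hqn' => ?_, fun n hqn' => ?_, ?_, ?_, ?_⟩
  · have h1 := (hn n (hqn.trans hqn')).2
    have h2 : 0 ≤ (n : ℝ) ^ (-(1 + α)) := by positivity
    nlinarith
  · have h1 := (hn n (hqn.trans hqn')).1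
    have h2 : 0 ≤ (n : ℝ) ^ (-(1 + α)) := by positivity
    nlinarith
  · have h1 := kra_s2 α hα0 hα1.le K (5 / 4 * cK) (by positivity) n0 hn0
      (fun n h => (hn n h).2) ℓ (by omega)
    have h2 : 0 ≤ (ℓ : ℝ) ^ (2 - α) := by positivity
    nlinarith
  · have h1 := kra_TSl α hα0 hα1 K (3 / 4 * cK) (by positivity) n0 (fun n h => (hn n h).1) ℓ
      (by omega)
    have h2 : 4 * δ * (3 / 4 * cK / α / (1 - α) *
        ((ℓ : ℝ) ^ (1 - α) - ((n0 : ℝ) + 1) ^ (1 - α))) ≤ 4 * δ * TS K ℓ :=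
      mul_le_mul_of_nonneg_left h1 (by positivity)
    have h3 : 4 * δ * (3 / 4 * cK / α / (1 - α) *
        ((ℓ : ℝ) ^ (1 - α) - ((n0 : ℝ) + 1) ^ (1 - α))) =
        3 * cK * (1 / α) * ((ℓ : ℝ) ^ (1 - α) - ((n0 : ℝ) + 1) ^ (1 - α)) := by
      have : (1 - α) ≠ 0 := by linarith
      rw [hδ]
      field_simp
    rw [h3] at h2
    refine le_trans ?_ h2
    have h4 : 1 / 2 * (ℓ : ℝ) ^ (1 - α) ≤ (ℓ : ℝ) ^ (1 - α) - ((n0 : ℝ) + 1) ^ (1 - α) := by
      linarith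
    have h5 : 0 ≤ (ℓ : ℝ) ^ (1 - α) := by positivity
    calc cK * (ℓ : ℝ) ^ (1 - α) ≤ 3 * cK * 1 * (1 / 2 * (ℓ : ℝ) ^ (1 - α)) := by nlinarith
      _ ≤ 3 * cK * (1 / α) * ((ℓ : ℝ) ^ (1 - α) - ((n0 : ℝ) + 1) ^ (1 - α)) := by
        refine mul_le_mul ?_ h4 (by positivity) (by positivity)
        exact mul_le_mul_of_nonneg_left hα3 (by positivity)
  · have h1 := kra_TSu α hα0 hα1 K (5 / 4 * cK) (by positivity) n0 hn0 (fun n h => (hn n h).2) ℓ
    have h2 : δ * TS K ℓ ≤ δ * (n0 + 2 * (5 / 4 * cK) / α * ((ℓ : ℝ) ^ (1 - α) / (1 - α))) :=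
      mul_le_mul_of_nonneg_left h1 hδ0.le
    have h3 : δ * (n0 + 2 * (5 / 4 * cK) / α * ((ℓ : ℝ) ^ (1 - α) / (1 - α))) =
        δ * n0 + 5 / 2 * cK * (1 / α) * (ℓ : ℝ) ^ (1 - α) := by
      have : (1 - α) ≠ 0 := by linarith
      rw [hδ]
      field_simp
      ring
    rw [h3] at h2
    refine h2.trans ?_
    have h5 : 0 ≤ (ℓ : ℝ) ^ (1 - α) := by positivity
    have h6 : δ * n0 ≤ 1 * n0 := mul_le_mul_of_nonneg_right (by linarith) (Nat.cast_nonneg _)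
    have h7 : 5 / 2 * cK * (1 / α) * (ℓ : ℝ) ^ (1 - α) ≤
        5 / 2 * cK * (11 / 10) * (ℓ : ℝ) ^ (1 - α) := by
      refine mul_le_mul_of_nonneg_right ?_ h5
      exact mul_le_mul_of_nonneg_left hα2 (by positivity)
    nlinarith

end Pool.Agent.H61.SLN
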