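import Pool.Agent.H98.SLN.Targets

set_option autoImplicit false

open MeasureTheory ProbabilityTheory Filter Topology
open scoped ENNReal
open Pool.Agent.H95 Pool.Agent.H95.Cop
open Pool.Agent.H55.CG (pz VV Mo)
open Pool.Agent.H98.CE (pc WB HK OBJ)
open Pool.Agent.H96.Cop (ex pk Wn chargeLaw)
open Pool.Agent.H99.CE (NX)
open Pool.Agent.H98.SLN

namespace Pool.Agent.H61.SLN

lemma upb_cells : Tendsto (fun lam : ℝ => ⌈1 / lam ^ 2⌉₊) (𝓝[>] (0 : ℝ)) atTop := by
  have h1 : Tendsto (fun lam : ℝ => 1 / lam ^ 2) (𝓝[>] (0 : ℝ)) atTop := by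
    have h2 : Tendsto (fun lam : ℝ => lam ^ 2) (𝓝[>] (0 : ℝ)) (𝓝[>] (0 : ℝ)) := by
      rw [tendsto_nhdsWithin_iff]
      refine ⟨?_, ?_⟩
      · have : Tendsto (fun lam : ℝ => lam ^ 2) (𝓝 (0 : ℝ)) (𝓝 ((0 : ℝ) ^ 2)) :=
          (continuous_pow 2).tendsto 0
        rw [zero_pow two_ne_zero] at this
        exact this.mono_left nhdsWithin_le_nhds
      · filter_upwards [self_mem_nhdsWithin] with lam hlam
        have hlam1 : 0 < lam := hlam
        have : 0 < lam ^ 2 := by positivity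
        exact this
    have h3 := tendsto_inv_nhdsGT_zero.comp h2
    refine h3.congr (fun lam => ?_)
    simp only [Function.comp, one_div]
  exact tendsto_nat_ceil_atTop.comp h1

lemma upb_log4 : ∀ᶠ n : ℕ in atTop, Real.log n ^ 4 ≤ 1 / 2 * (n : ℝ) := by
  have h1 := (Real.isLittleO_pow_log_id_atTop (n := 4)).def (c := 1 / 2) (by norm_num)
  have h2 := tendsto_natCast_atTop_atTop.eventually h1
  filter_upwards [h2, eventually_ge_atTop 1] with n hn hn1
  have h3 : (0 : ℝ) ≤ Real.log n ^ 4 := by positivity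
  rw [Real.norm_of_nonneg h3, id, Real.norm_of_nonneg (Nat.cast_nonneg n)] at hn
  exact hn

theorem pf_UPB (hKRB : T_KRB) (hUMM : T_UMM) (hUFN : T_UFN) (hMOH : T_MOH)
    (hNEG : Pool.Agent.H99.CE.T_NEG) : T_UPB := by
  intro K hK0 cK hcK hK μ _ hexp hmean hvar
  obtain ⟨δ3, hδ3, hum⟩ := hUMM
  obtain ⟨δ2, hδ2, hufn⟩ := hUFN
  obtain ⟨lam0, hlam0, humm⟩ := hum μ hexp hmean hvar
  have e1 := upb_cells.eventually (hKRB K hK0 cK hcK hK)
  have hloginf : Tendsto (fun n : ℕ => Real.log n) atTop atTop :=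
    Real.tendsto_log_atTop.comp tendsto_natCast_atTop_atTop
  have e2 := upb_cells.eventually (hloginf.eventually (eventually_gt_atTop (1 / δ3)))
  have e3 := upb_cells.eventually (hloginf.eventually (eventually_gt_atTop (1 / δ2)))
  have e4 := upb_cells.eventually upb_log4
  have e5 : ∀ᶠ lam in 𝓝[>] (0 : ℝ), lam < min lam0 (1 / 2) :=
    mem_nhdsWithin_of_mem_nhds (gt_mem_nhds (lt_min hlam0 (by norm_num)))
  filter_upwards [e1, e2, e3, e4, e5, self_mem_nhdsWithin] with lam g1 g2 g3 g4 g5 hlam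
  have h0 : 0 < lam := hlam
  have hl0 : lam < lam0 := g5.trans_le (min_le_left _ _)
  have hl1 : lam < 1 / 2 := g5.trans_le (min_le_right _ _)
  set l : ℕ := ⌈1 / lam ^ 2⌉₊ with hl
  set δ : ℝ := 1 / Real.log l with hδdef
  have hlogpos : 0 < Real.log l := lt_trans (by positivity) g2
  have hδ0 : 0 < δ := by positivity
  have hδlt3 : δ < δ3 := by
    rw [hδdef, div_lt_iff₀ hlogpos]
    rw [div_lt_iff₀ hδ3] at g2
    linarith
  have hδlt2 : δ < δ2 := by
    rw [hδdef, div_lt_iff₀ hlogpos]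
    rw [div_lt_iff₀ hδ2] at g3
    linarith
  have hlamsq : 0 < lam ^ 2 := by positivity
  have hlle : (l : ℝ) ≤ 2 / lam ^ 2 := by
    have h1 : (l : ℝ) < 1 / lam ^ 2 + 1 := Nat.ceil_lt_add_one (by positivity)
    have h2 : (1 : ℝ) ≤ 1 / lam ^ 2 := by
      rw [le_div_iff₀ hlamsq]
      nlinarith
    have h3 : 2 / lam ^ 2 = 1 / lam ^ 2 + 1 / lam ^ 2 := by ring
    rw [h3]
    linarith
  have hlge : 1 / lam ^ 2 ≤ (l : ℝ) := Nat.le_ceil _
  have hlamδ : lam ≤ δ ^ 2 := by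
    have h1 : (Real.log l ^ 2) ^ 2 ≤ (1 / lam) ^ 2 := by
      calc (Real.log l ^ 2) ^ 2 = Real.log l ^ 4 := by ring
        _ ≤ 1 / 2 * (l : ℝ) := g4
        _ ≤ 1 / 2 * (2 / lam ^ 2) := mul_le_mul_of_nonneg_left hlle (by norm_num)
        _ = (1 / lam) ^ 2 := by ring
    have h2 : Real.log l ^ 2 ≤ 1 / lam := by
      have := abs_le_of_sq_le_sq h1 (by positivity)
      exact (le_abs_self _).trans this
    rw [le_div_iff₀ h0] at h2
    rw [hδdef, div_pow, one_pow, le_div_iff₀ (by positivity)]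
    linarith
  obtain ⟨ρ, τ, hUM⟩ := humm lam δ 1 h0 hl0 hδ0 hδlt3 (by linarith) le_rfl hlamδ
  set h : ℝ := (3 / 4 + 70 * δ ^ (1 / 4 : ℝ)) * lam with hh
  have hδq : 0 ≤ δ ^ (1 / 4 : ℝ) := Real.rpow_nonneg hδ0.le _
  have hhpos : 0 ≤ h := by positivity
  obtain ⟨C, hC, hbd⟩ := hufn K 1 cK δ l _ (chargeLaw μ lam h) ρ τ hδlt2 g1 hUM
  have htu : 0 < tu 1 δ := by
    unfold tu
    positivity
  have hcrit : criticalCurve K μ lam ≤ h := by
    unfold criticalCurve
    apply Real.sSup_le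
    · rintro h' ⟨hh0, f, hf0, hfe⟩
      by_contra hcon
      push Not at hcon
      have hbd' : ∀ N : ℕ, ∫⁻ x, Wn K N x ^ tu 1 δ ∂(iid (chargeLaw μ lam h')) ≤
          ENNReal.ofReal C := fun N =>
        (hMOH K μ lam h h' (tu 1 δ) h0.le hcon.le htu.le N).trans (hbd N)
      have := hNEG K μ hexp lam h' (tu 1 δ) C htu hC hbd' f hfe
      linarith
    · exact hhpos
  have hfin : δ ^ (1 / 4 : ℝ) ≤ Real.log (1 / lam) ^ (-(1 / 4) : ℝ) := by
    have hL0 : 0 < Real.log (1 / lam) := by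
      refine Real.log_pos ?_
      rw [lt_div_iff₀ h0]
      linarith
    have hL1 : Real.log (1 / lam) ≤ Real.log l := by
      refine Real.log_le_log (by positivity) (le_trans ?_ hlge)
      rw [div_le_div_iff₀ h0 hlamsq]
      nlinarith
    rw [Real.rpow_neg hL0.le, ← Real.inv_rpow hL0.le]
    refine Real.rpow_le_rpow hδ0.le ?_ (by norm_num)
    rw [hδdef, one_div]
    exact inv_anti₀ hL0 hL1
  rw [div_le_iff₀ h0]
  calc criticalCurve K μ lam ≤ h := hcrit
    _ ≤ (3 / 4 + 70 * Real.log (1 / lam) ^ (-(1 / 4) : ℝ)) * lam := by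
      rw [hh]
      refine mul_le_mul_of_nonneg_right ?_ h0.le
      linarith

end Pool.Agent.H61.SLN
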